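import Pool.Agent.W279.TriS.Defs

/-!
# Part K: the third coordinate is a Lipschitz function of the first two
-/

set_option autoImplicit false

namespace Pool.Agent.W515.SA

open Pool.Agent.W279.Tri Pool.Agent.W279.TriS Filter Topology

section ring

variable {R : Type*} [CommRing R]

lemma E_lin1 (c : Fin 3 → Fin 3 → Fin 3 → R) (a b Y Z : Fin 2 → R) (t : R) :
    E c (a + t • b) Y Z = E c a Y Z + (E c (a + b) Y Z - E c a Y Z - E c b Y Z) * t +
      E c b Y Z * t ^ 2 := by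
  simp only [E_eq_qf, qf, Pi.add_apply, Pi.smul_apply, smul_eq_mul]
  ring

lemma E_lin2 (c : Fin 3 → Fin 3 → Fin 3 → R) (X a b Z : Fin 2 → R) (t : R) :
    E c X (a + t • b) Z = E c X a Z + (E c X (a + b) Z - E c X a Z - E c X b Z) * t +
      E c X b Z * t ^ 2 := by
  simp only [E, coef, mon, Fin.sum_univ_three, Pi.add_apply, Pi.smul_apply, smul_eq_mul,
    Matrix.cons_val_zero, Matrix.cons_val_one, Matrix.cons_val]
  ring

lemma E_lin3 (c : Fin 3 → Fin 3 → Fin 3 → R) (X Y a b : Fin 2 → R) (t : R) :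
    E c X Y (a + t • b) = E c X Y a + PE c X Y a b * t + E c X Y b * t ^ 2 := by
  unfold PE
  simp only [E, coef, mon, Fin.sum_univ_three, Pi.add_apply, Pi.smul_apply, smul_eq_mul,
    Matrix.cons_val_zero, Matrix.cons_val_one, Matrix.cons_val]
  ring

end ring

lemma cont_E {L T : Type*} [NontriviallyNormedField L] [TopologicalSpace T]
    (c : Fin 3 → Fin 3 → Fin 3 → L) {X Y Z : T → Fin 2 → L} (hX : Continuous X)
    (hY : Continuous Y) (hZ : Continuous Z) : Continuous (fun t => E c (X t) (Y t) (Z t)) := by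
  simp only [E, coef, mon, Fin.sum_univ_three, Matrix.cons_val_zero, Matrix.cons_val_one,
    Matrix.cons_val]
  fun_prop

theorem main : StmtChart := by
  intro L _ _ c a₀ b₀ a₁ b₁ a₂ b₂ hE hPE
  -- the three difference quotients, as functions of `p = (x, y, z, x', y', z')`
  let H : (Fin 6 → L) → L := fun p =>
    (E c (a₀ + p 0 • b₀) (a₁ + p 1 • b₁) (a₂ + b₂) - E c (a₀ + p 0 • b₀) (a₁ + p 1 • b₁) a₂ -
      E c (a₀ + p 0 • b₀) (a₁ + p 1 • b₁) b₂) +
      E c (a₀ + p 0 • b₀) (a₁ + p 1 • b₁) b₂ * (p 2 + p 5)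
  let P : (Fin 6 → L) → L := fun p =>
    (E c (a₀ + b₀) (a₁ + p 1 • b₁) (a₂ + p 5 • b₂) - E c a₀ (a₁ + p 1 • b₁) (a₂ + p 5 • b₂) -
      E c b₀ (a₁ + p 1 • b₁) (a₂ + p 5 • b₂)) +
      E c b₀ (a₁ + p 1 • b₁) (a₂ + p 5 • b₂) * (p 0 + p 3)
  let Q : (Fin 6 → L) → L := fun p =>
    (E c (a₀ + p 3 • b₀) (a₁ + b₁) (a₂ + p 5 • b₂) - E c (a₀ + p 3 • b₀) a₁ (a₂ + p 5 • b₂) -
      E c (a₀ + p 3 • b₀) b₁ (a₂ + p 5 • b₂)) +
      E c (a₀ + p 3 • b₀) b₁ (a₂ + p 5 • b₂) * (p 1 + p 4)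
  have hHc : Continuous H := by
    refine Continuous.add (Continuous.sub (Continuous.sub ?_ ?_) ?_) (Continuous.mul ?_ ?_)
    · exact cont_E c (by fun_prop) (by fun_prop) (by fun_prop)
    · exact cont_E c (by fun_prop) (by fun_prop) (by fun_prop)
    · exact cont_E c (by fun_prop) (by fun_prop) (by fun_prop)
    · exact cont_E c (by fun_prop) (by fun_prop) (by fun_prop)
    · fun_prop
  have hPc : Continuous P := by
    refine Continuous.add (Continuous.sub (Continuous.sub ?_ ?_) ?_) (Continuous.mul ?_ ?_)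
    · exact cont_E c (by fun_prop) (by fun_prop) (by fun_prop)
    · exact cont_E c (by fun_prop) (by fun_prop) (by fun_prop)
    · exact cont_E c (by fun_prop) (by fun_prop) (by fun_prop)
    · exact cont_E c (by fun_prop) (by fun_prop) (by fun_prop)
    · fun_prop
  have hQc : Continuous Q := by
    refine Continuous.add (Continuous.sub (Continuous.sub ?_ ?_) ?_) (Continuous.mul ?_ ?_)
    · exact cont_E c (by fun_prop) (by fun_prop) (by fun_prop)
    · exact cont_E c (by fun_prop) (by fun_prop) (by fun_prop)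
    · exact cont_E c (by fun_prop) (by fun_prop) (by fun_prop)
    · exact cont_E c (by fun_prop) (by fun_prop) (by fun_prop)
    · fun_prop
  have hH0 : H 0 = PE c a₀ a₁ a₂ b₂ := by
    simp only [H, PE, Pi.zero_apply, zero_smul, add_zero, mul_zero]
  -- lower bound for H
  have hHpos : 0 < ‖H 0‖ := by rw [hH0]; exact norm_pos_iff.mpr hPE
  have hev : ∀ᶠ p in 𝓝 (0 : Fin 6 → L), ‖H 0‖ / 2 < ‖H p‖ :=
    (hHc.norm.continuousAt).eventually_const_lt (by linarith)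
  obtain ⟨r, hr, hball⟩ := Metric.eventually_nhds_iff.mp hev
  -- upper bounds for P and Q
  have hcpt : IsCompact (Metric.closedBall (0 : Fin 6 → L) 1) := isCompact_closedBall _ _
  obtain ⟨M₁, hM₁⟩ := hcpt.exists_bound_of_continuousOn hPc.continuousOn
  obtain ⟨M₂, hM₂⟩ := hcpt.exists_bound_of_continuousOn hQc.continuousOn
  have hM₁0 : 0 ≤ M₁ := (norm_nonneg _).trans (hM₁ 0 (by simp))
  have hM₂0 : 0 ≤ M₂ := (norm_nonneg _).trans (hM₂ 0 (by simp))
  refine ⟨min 1 (r / 2), (M₁ + M₂) / (‖H 0‖ / 2), by positivity, by positivity, ?_⟩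
  intro x y z x' y' z' hx hy hz hx' hy' hz' h1 h2
  set p : Fin 6 → L := ![x, y, z, x', y', z'] with hp
  have hpn : ‖p‖ ≤ min 1 (r / 2) := by
    rw [pi_norm_le_iff_of_nonneg (by positivity)]
    intro i
    fin_cases i
    · exact hx
    · exact hy
    · exact hz
    · exact hx'
    · exact hy'
    · exact hz'
  have hp1 : p ∈ Metric.closedBall (0 : Fin 6 → L) 1 := by
    rw [mem_closedBall_zero_iff]
    exact hpn.trans (min_le_left _ _)
  have hpr : dist p 0 < r := by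
    rw [dist_zero_right]
    have := hpn.trans (min_le_right _ _)
    linarith
  have hHp := hball hpr
  have hPp := hM₁ p hp1
  have hQp := hM₂ p hp1
  have key : (z - z') * H p + (x - x') * P p + (y - y') * Q p = 0 := by
    have e1 : E c (a₀ + x • b₀) (a₁ + y • b₁) (a₂ + z • b₂) -
        E c (a₀ + x • b₀) (a₁ + y • b₁) (a₂ + z' • b₂) = (z - z') * H p := by
      rw [E_lin3 c _ _ a₂ b₂ z, E_lin3 c _ _ a₂ b₂ z']
      have : H p = PE c (a₀ + x • b₀) (a₁ + y • b₁) a₂ b₂ +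
          E c (a₀ + x • b₀) (a₁ + y • b₁) b₂ * (z + z') := rfl
      rw [this]
      ring
    have e2 : E c (a₀ + x • b₀) (a₁ + y • b₁) (a₂ + z' • b₂) -
        E c (a₀ + x' • b₀) (a₁ + y • b₁) (a₂ + z' • b₂) = (x - x') * P p := by
      rw [E_lin1 c a₀ b₀ _ _ x, E_lin1 c a₀ b₀ _ _ x']
      have : P p = (E c (a₀ + b₀) (a₁ + y • b₁) (a₂ + z' • b₂) -
        E c a₀ (a₁ + y • b₁) (a₂ + z' • b₂) - E c b₀ (a₁ + y • b₁) (a₂ + z' • b₂)) +
        E c b₀ (a₁ + y • b₁) (a₂ + z' • b₂) * (x + x') := rfl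
      rw [this]
      ring
    have e3 : E c (a₀ + x' • b₀) (a₁ + y • b₁) (a₂ + z' • b₂) -
        E c (a₀ + x' • b₀) (a₁ + y' • b₁) (a₂ + z' • b₂) = (y - y') * Q p := by
      rw [E_lin2 c _ a₁ b₁ _ y, E_lin2 c _ a₁ b₁ _ y']
      have : Q p = (E c (a₀ + x' • b₀) (a₁ + b₁) (a₂ + z' • b₂) -
        E c (a₀ + x' • b₀) a₁ (a₂ + z' • b₂) - E c (a₀ + x' • b₀) b₁ (a₂ + z' • b₂)) +
        E c (a₀ + x' • b₀) b₁ (a₂ + z' • b₂) * (y + y') := rfl
      rw [this]
      ring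
    rw [← e1, ← e2, ← e3, h1, h2]
    ring
  have k1 : (z - z') * H p = -((x - x') * P p + (y - y') * Q p) := by
    linear_combination key
  have k2 : ‖z - z'‖ * ‖H p‖ ≤ ‖x - x'‖ * ‖P p‖ + ‖y - y'‖ * ‖Q p‖ := by
    rw [← norm_mul, k1, norm_neg, ← norm_mul, ← norm_mul]
    exact norm_add_le _ _
  set m := max ‖x - x'‖ ‖y - y'‖ with hm
  have k3 : ‖x - x'‖ * ‖P p‖ ≤ m * M₁ :=
    mul_le_mul (le_max_left _ _) hPp (norm_nonneg _) ((norm_nonneg _).trans (le_max_left _ _))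
  have k4 : ‖y - y'‖ * ‖Q p‖ ≤ m * M₂ :=
    mul_le_mul (le_max_right _ _) hQp (norm_nonneg _) ((norm_nonneg _).trans (le_max_left _ _))
  have k5 : ‖z - z'‖ * (‖H 0‖ / 2) ≤ ‖z - z'‖ * ‖H p‖ :=
    mul_le_mul_of_nonneg_left hHp.le (norm_nonneg _)
  rw [div_mul_eq_mul_div, le_div_iff₀ (by positivity)]
  linarith

end Pool.Agent.W515.SA
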