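import Pool.Agent.W279.TriS.Defs

/-!
# Part X: large sets of different types meet
-/

set_option autoImplicit false

namespace Pool.Agent.W515.SA

open Pool.Agent.W279.TriS

theorem crt : StmtCrt := by
  classical
  intro V _ q hinj hq A hA
  have := Fintype.ofFinite V
  -- data for the primes
  have h1 : ∀ v, ∃ N c : ℕ, q v ≠ 0 → ∀ k, k ≡ c [MOD q v ^ N] → k ∈ A v := by
    intro v
    by_cases h0 : q v = 0
    · exact ⟨0, 0, fun h => absurd h0 h⟩
    · have h2 := hA v
      rw [Big, if_neg h0] at h2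
      obtain ⟨N, c, h3⟩ := h2
      exact ⟨N, c, fun _ => h3⟩
  choose N c hNc using h1
  set S : Finset V := Finset.univ.filter (fun v => q v ≠ 0) with hS
  have hSq : ∀ v ∈ S, (q v).Prime := by
    intro v hv
    exact (hq v).resolve_left (Finset.mem_filter.mp hv).2
  have hcop : Set.Pairwise (S : Set V) (Function.onFun Nat.Coprime (fun v => q v ^ N v)) := by
    intro v hv w hw hvw
    apply Nat.Coprime.pow
    exact (Nat.coprime_primes (hSq v hv) (hSq w hw)).mpr (fun h => hvw (hinj h))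
  obtain ⟨x, hx⟩ := Nat.chineseRemainderOfFinset c (fun v => q v ^ N v) S
    (fun v hv => pow_ne_zero _ (hSq v hv).ne_zero) hcop
  set M : ℕ := ∏ v ∈ S, q v ^ N v with hM
  have hM0 : M ≠ 0 := Finset.prod_ne_zero_iff.mpr (fun v hv => pow_ne_zero _ (hSq v hv).ne_zero)
  by_cases h0 : ∃ v₀, q v₀ = 0
  · obtain ⟨v₀, hv₀⟩ := h0
    have h2 := hA v₀
    rw [Big, if_pos hv₀] at h2
    obtain ⟨k, hk, hkx⟩ := h2 M x hM0
    refine ⟨k, fun v => ?_⟩
    by_cases hv : q v = 0
    · have : v = v₀ := hinj (hv.trans hv₀.symm)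
      rw [this]
      exact hk
    · have hvS : v ∈ S := Finset.mem_filter.mpr ⟨Finset.mem_univ _, hv⟩
      apply hNc v hv
      have h3 : k ≡ x [MOD q v ^ N v] :=
        hkx.of_dvd (Finset.dvd_prod_of_mem (fun v => q v ^ N v) hvS)
      exact h3.trans (hx v hvS)
  · push Not at h0
    refine ⟨x, fun v => ?_⟩
    exact hNc v (h0 v) x (hx v (Finset.mem_filter.mpr ⟨Finset.mem_univ _, h0 v⟩))

end Pool.Agent.W515.SA
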